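import Pool.Agent.W332.SL7.Final
import Pool.Agent.W254.Ab.Four2

/-!
# The space spanned by the linear relations with coefficients in a given space
-/

set_option autoImplicit false
set_option linter.unusedSectionVars false

namespace Pool.Agent.Q244.QL

open Module Finset
open Pool.Agent.W254.PA (Hyp)
open Pool.Agent.W254.Ab

/-- Generators from a bound for the independent subsets. -/
theorem gens {Ω M : Type*} [Field Ω] [AddCommGroup M] [Module Ω M] (R : Set M) (N : ℕ)
    (hN : ∀ (m : ℕ) (f : Fin m → M), LinearIndependent Ω f → (∀ i, f i ∈ R) → m ≤ N) :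
    ∃ T : Finset M, T.card ≤ N ∧ (∀ g ∈ T, g ∈ R) ∧ ∀ c ∈ R, c ∈ Submodule.span Ω (T : Set M) := by
  classical
  obtain ⟨b, hbR, hspan, hli⟩ := exists_linearIndependent Ω R
  have hcard : ∀ T : Finset M, (T : Set M) ⊆ b → T.card ≤ N := by
    intro T hT
    apply hN T.card (fun i => (T.equivFin.symm i : M))
    · have h1 := hli.comp (fun i : Fin T.card => (⟨(T.equivFin.symm i : M), hT (T.equivFin.symm i).2⟩ : b))
        (fun i j hij => T.equivFin.symm.injective (Subtype.ext (by simpa using hij)))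
      exact h1
    · intro i
      exact hbR (hT (T.equivFin.symm i).2)
  have hfin : b.Finite := by
    by_contra hinf
    obtain ⟨T, hT, hc⟩ := Set.Infinite.exists_subset_card_eq (s := b) hinf (N + 1)
    have := hcard T hT
    omega
  refine ⟨hfin.toFinset, hcard _ (by simp), fun g hg => hbR (by simpa using hg), fun c hc => ?_⟩
  rw [hfin.coe_toFinset, hspan]
  exact Submodule.subset_span hc

/-- The supports. -/
theorem support_span {Ω ι : Type*} [Field Ω] (T : Finset (ι →₀ Ω)) [DecidableEq ι] {c : ι →₀ Ω}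
    (hc : c ∈ Submodule.span Ω (T : Set (ι →₀ Ω))) : c.support ⊆ T.biUnion Finsupp.support := by
  intro q hq
  by_contra hcon
  have h1 : ∀ g ∈ T, g q = 0 := by
    intro g hg
    by_contra h
    exact hcon (Finset.mem_biUnion.2 ⟨g, hg, Finsupp.mem_support_iff.2 h⟩)
  have h2 : Submodule.span Ω (T : Set (ι →₀ Ω)) ≤ LinearMap.ker (Finsupp.lapply q : (ι →₀ Ω) →ₗ[Ω] Ω) := by
    rw [Submodule.span_le]
    intro g hg
    exact h1 g hg
  exact Finsupp.mem_support_iff.1 hq (h2 hc)

theorem ncard_support {Ω ι : Type*} [Field Ω] (R : Set (ι →₀ Ω)) (N k : ℕ)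
    (hN : ∀ (m : ℕ) (f : Fin m → (ι →₀ Ω)), LinearIndependent Ω f → (∀ i, f i ∈ R) → m ≤ N) :
    {q : ι | ∃ c ∈ R, c.support.card ≤ k ∧ c q ≠ 0}.Finite ∧
    {q : ι | ∃ c ∈ R, c.support.card ≤ k ∧ c q ≠ 0}.ncard ≤ k * N := by
  classical
  obtain ⟨T, hT, hTR, hspan⟩ := gens (Ω := Ω) {c : ι →₀ Ω | c ∈ R ∧ c.support.card ≤ k} N
    (fun m f hf hfR => hN m f hf fun i => (hfR i).1)
  have hsub : {q : ι | ∃ c ∈ R, c.support.card ≤ k ∧ c q ≠ 0} ⊆ (T.biUnion Finsupp.support : Finset ι) := by
    rintro q ⟨c, hc, hk, hq⟩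
    exact support_span T (hspan c ⟨hc, hk⟩) (Finsupp.mem_support_iff.2 hq)
  refine ⟨(Finset.finite_toSet _).subset hsub, ?_⟩
  refine (Set.ncard_le_ncard hsub (Finset.finite_toSet _)).trans ?_
  rw [Set.ncard_coe_finset]
  calc (T.biUnion Finsupp.support).card ≤ T.card * k :=
        Finset.card_biUnion_le_card_mul _ _ _ fun g hg => (hTR g hg).2
    _ ≤ k * N := by rw [mul_comm]; exact Nat.mul_le_mul_left k hT

variable {Ω : Type*} [Field Ω] [CharZero Ω]

/-- The linear relations between `1` and the `l q` with coefficients in `W`: finitely supported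
families `c` with values in `W` for which `∑ c q * l q` is an element of `W`. -/
def Rel {ι : Type*} (W : Submodule (QA Ω) Ω) (l : ι → Ω) : Set (ι →₀ Ω) :=
  {c | (∀ q, c q ∈ W) ∧ c.sum (fun q x => x * l q) ∈ W}

/-- the extended relation -/
noncomputable def ext {ι : Type*} (l : ι → Ω) : (ι →₀ Ω) →ₗ[Ω] (Option ι →₀ Ω) :=
  Finsupp.lmapDomain Ω Ω some - Finsupp.lsingle none ∘ₗ Finsupp.linearCombination Ω l

theorem ext_some {ι : Type*} (l : ι → Ω) (c : ι →₀ Ω) (q : ι) : ext l c (some q) = c q := by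
  classical
  simp only [ext, LinearMap.sub_apply, Finsupp.lmapDomain_apply, LinearMap.comp_apply,
    Finsupp.lsingle_apply, Finsupp.sub_apply]
  rw [Finsupp.mapDomain_apply (Option.some_injective ι)]
  simp

theorem ext_none {ι : Type*} (l : ι → Ω) (c : ι →₀ Ω) :
    ext l c none = - c.sum (fun q x => x * l q) := by
  classical
  simp only [ext, LinearMap.sub_apply, Finsupp.lmapDomain_apply, LinearMap.comp_apply,
    Finsupp.lsingle_apply, Finsupp.sub_apply]
  rw [Finsupp.mapDomain_of_notMem_range _ _ (by simp)]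
  simp [Finsupp.linearCombination_apply, smul_eq_mul]

theorem ext_sum {ι : Type*} (l : ι → Ω) (c : ι →₀ Ω) :
    (ext l c).sum (fun o x => x * (o.elim 1 l : Ω)) = 0 := by
  classical
  have h1 : ∀ g : Option ι →₀ Ω, g.sum (fun o x => x * (o.elim 1 l : Ω)) =
      Finsupp.linearCombination Ω (fun o : Option ι => (o.elim 1 l : Ω)) g := by
    intro g
    simp [Finsupp.linearCombination_apply, smul_eq_mul]
  rw [h1, ext, LinearMap.sub_apply, map_sub, Finsupp.lmapDomain_apply,
    Finsupp.linearCombination_mapDomain, LinearMap.comp_apply, Finsupp.lsingle_apply,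
    Finsupp.linearCombination_single]
  simp [Function.comp_def]

theorem ext_injective {ι : Type*} (l : ι → Ω) : LinearMap.ker (ext l) = ⊥ := by
  rw [LinearMap.ker_eq_bot']
  intro c hc
  ext q
  rw [← ext_some l c q, hc]
  rfl

variable [IsAlgClosed Ω] {V : Submodule (QA Ω) Ω} (hV : Hyp V)

include hV in
/-- Relations with coefficients in an arbitrary space of finite dimension. -/
theorem bound {ι : Type*} {l : ι → Ω} (hl : LinearIndependent (QA Ω) (fun o : Option ι => (o.elim 1 l : Ω)))
    (hL : ∀ o : Option ι, (o.elim 1 l : Ω) ∈ V) (W B : Submodule (QA Ω) Ω)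
    [FiniteDimensional (QA Ω) W] [FiniteDimensional (QA Ω) B] (hW : W ≠ ⊥) (m : ℕ)
    (f : Fin m → (ι →₀ Ω)) (hf : LinearIndependent Ω f) (hfR : ∀ i, f i ∈ Rel W l)
    (s δ : ℕ) (hs : s ≤ finrank (QA Ω) B)
    (hδ : finrank (QA Ω) (B * W : Submodule (QA Ω) Ω) ≤ finrank (QA Ω) B + δ) :
    m * s ≤ (δ + s) * (δ + s - 1) := by
  refine rel_trunc hV _ hl hL W B hW m (fun i => ext l (f i)) ?_ ?_ (fun i => ext_sum l _) s δ hs hδ
  · exact hf.map' (ext l) (ext_injective l)
  · intro i o
    cases o with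
    | none => rw [ext_none]; exact W.neg_mem (hfR i).2
    | some q => rw [ext_some]; exact (hfR i).1 q

include hV in
/-- the general bound -/
theorem bound_dim {ι : Type*} {l : ι → Ω} (hl : LinearIndependent (QA Ω) (fun o : Option ι => (o.elim 1 l : Ω)))
    (hL : ∀ o : Option ι, (o.elim 1 l : Ω) ∈ V) (W : Submodule (QA Ω) Ω)
    [FiniteDimensional (QA Ω) W] (m : ℕ)
    (f : Fin m → (ι →₀ Ω)) (hf : LinearIndependent Ω f) (hfR : ∀ i, f i ∈ Rel W l) :
    m ≤ finrank (QA Ω) W * (finrank (QA Ω) W - 1) := by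
  by_cases hW : W = ⊥
  · have h0 : ∀ i, f i = 0 := by
      intro i
      ext q
      have := (hfR i).1 q
      rw [hW, Submodule.mem_bot] at this
      exact this
    have hm : m = 0 := by
      by_contra hm
      exact hf.ne_zero ⟨0, Nat.pos_of_ne_zero hm⟩ (h0 _)
    omega
  · have : FiniteDimensional (QA Ω) (1 : Submodule (QA Ω) Ω) := by
      rw [Submodule.one_eq_span]
      infer_instance
    have h3 := bound hV hl hL W 1 hW m f hf hfR 1 (finrank (QA Ω) W - 1)
      (by rw [Submodule.one_eq_span, finrank_span_singleton one_ne_zero]) (by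
        rw [one_mul, Submodule.one_eq_span, finrank_span_singleton one_ne_zero]
        omega)
    have h4 : 1 ≤ finrank (QA Ω) W := by
      apply Nat.one_le_iff_ne_zero.mpr
      intro h
      exact hW (Submodule.finrank_eq_zero.mp h)
    rw [mul_one, Nat.sub_add_cancel h4] at h3
    exact h3

include hV in
/-- polynomials in `n` numbers -/
theorem bound_box {ι : Type*} {l : ι → Ω} (hl : LinearIndependent (QA Ω) (fun o : Option ι => (o.elim 1 l : Ω)))
    (hL : ∀ o : Option ι, (o.elim 1 l : Ω) ∈ V) {n : ℕ} (t : Fin n → Ω) (D : ℕ) (m : ℕ)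
    (f : Fin m → (ι →₀ Ω)) (hf : LinearIndependent Ω f) (hfR : ∀ i, f i ∈ Rel (boxV t (D + 1)) l) :
    m ≤ (4 * D) ^ n - 2 ^ n := by
  have key : ∀ B C : Submodule (QA Ω) Ω, FiniteDimensional (QA Ω) B → FiniteDimensional (QA Ω) C →
      (∀ b ∈ B, ∀ a ∈ boxV t (D + 1), b * a ∈ C) →
      m * finrank (QA Ω) B ≤ finrank (QA Ω) C * (finrank (QA Ω) C - 1) := by
    intro B C hB hC hBC
    refine rel_core hV _ hl hL (boxV t (D + 1)) B C hBC m (fun i => ext l (f i)) ?_ ?_
      (fun i => ext_sum l _)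
    · exact hf.map' (ext l) (ext_injective l)
    · intro i o
      cases o with
      | none => rw [ext_none]; exact (boxV t (D + 1)).neg_mem (hfR i).2
      | some q => rw [ext_some]; exact (hfR i).1 q
  rcases Nat.eq_zero_or_pos D with hD0 | hD
  · subst hD0
    have h0 : finrank (QA Ω) (boxV t 1) = 1 := by
      have h1 := finrank_boxV_pos t (N := 1) le_rfl
      have h2 := finrank_boxV_le t 1
      rw [one_pow] at h2
      exact le_antisymm h2 h1
    have h1 := key (boxV t 1) (boxV t 1) inferInstance inferInstance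
      (box_mul t 1 1 1 (by omega))
    rw [h0] at h1
    omega
  · exact gen_arith t D _ hD (key (boxV t D) (boxV t (2 * D)) inferInstance inferInstance
      (box_mul t D (D + 1) (2 * D) (by omega)))

end Pool.Agent.Q244.QL
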